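import Pool.Agent.H.MP_9ba241_pr.Model

/-!
# The delocalized copolymer: the limit is never `0` in the annealed delocalized region

For every inter-arrival law, every law of the charges and every `lam > 0`: each `h` with
`E exp (-2 lam (ω_1 + h)) < 1` gives a point in the interior of the delocalized region at which,
for every `ε ∈ (0, 1)`, almost surely, the polymer probability of `Δ_n = 0 for all n ∈ [ε N, N]`
has upper limit `1`; such `h` exist.
-/

open MeasureTheory ProbabilityTheory Filter Topology
open Pool.Agent.H.MP_9ba241_pr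

set_option linter.style.haveILetI false

namespace Pool.Agent.Results.MP_9ba241_pr.AnnealedLimsupOne

theorem result.{u, v} (Ω : Type u) (Ω' : Type v) (_ : MeasurableSpace Ω) (_ : MeasurableSpace Ω')
    (K : ℕ → ℝ) (α : ℝ) (P : Measure Ω') (ξ : ℕ → Ω' → ℕ) (ζ : ℕ → Ω' → Bool)
    (ν : Measure ℝ) (Q : Measure Ω) (ω : ℕ → Ω → ℝ)
    (hK : InterArrival K α) (hP : IsProbabilityMeasure P) (hR : RenewalSigns K P ξ ζ)
    (hν : ChargeLaw ν) (hQ : IsProbabilityMeasure Q) (hC : Charges ν Q ω)
    (lam : ℝ) (hlam : 0 < lam) :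
    (∃ h : ℝ, ∫ t, Real.exp (-2 * lam * (t + h)) ∂ν < 1) ∧
    ∀ h : ℝ, ∫ t, Real.exp (-2 * lam * (t + h)) ∂ν < 1 →
      0 < h ∧ (lam, h) ∈ interior (delocRegion P ξ ζ Q ω) ∧
        ∀ ε : ℝ, 0 < ε → ε < 1 → ∀ᵐ a ∂Q,
          limsup (fun N => polymer P ξ ζ lam h (fun n => ω n a) N (staysUp ξ ζ ε N)) atTop
            = 1 := by
  haveI := hν.prob
  constructor
  · set M : ℝ := ∫ t, Real.exp (-2 * lam * t) ∂ν with hM
    have hM1 : 1 ≤ M := one_le_mgf hν.exp_moment hν.integrable_id hν.mean (-2 * lam)
    refine ⟨Real.log (2 * M) / (2 * lam), ?_⟩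
    have e : ∀ t : ℝ, Real.exp (-2 * lam * (t + Real.log (2 * M) / (2 * lam))) =
        (2 * M)⁻¹ * Real.exp (-2 * lam * t) := by
      intro t
      have h1 : -2 * lam * (t + Real.log (2 * M) / (2 * lam)) =
          -Real.log (2 * M) + -2 * lam * t := by field_simp; ring
      rw [h1, Real.exp_add, Real.exp_neg, Real.exp_log (by linarith)]
    simp_rw [e]
    rw [integral_const_mul, ← hM, mul_inv, mul_assoc, inv_mul_cancel₀ (by linarith)]
    norm_num
  · intro h hφ
    have hann := annealed hK hR hC hν.exp_moment hν.integrable_id hν.mean lam h hlam hφ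
    refine ⟨?_, hann⟩
    by_contra hcon
    push Not at hcon
    have h1 := one_le_mgf hν.exp_moment hν.integrable_id hν.mean (-2 * lam)
    have h2 : ∫ x, Real.exp (-2 * lam * x) ∂ν ≤ ∫ t, Real.exp (-2 * lam * (t + h)) ∂ν := by
      apply integral_mono (hν.exp_moment _)
      · have := ph_integrable hν.exp_moment lam h 1
        simp only [one_mul] at this
        exact this
      · intro t
        apply Real.exp_le_exp.2
        nlinarith
    linarith

end Pool.Agent.Results.MP_9ba241_pr.AnnealedLimsupOne
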