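import Pool.Agent.H.MP_9ba241_pr.Model

/-!
# The delocalized copolymer: no almost sure limit inside the delocalized region

First part: for every inter-arrival law `K` and every law `ν` of the charges (mean `0`, variance
`1`, all exponential moments) without an atom at its essential infimum there is a point
`(lam, h)` in the interior of the delocalized region such that for every `ε ∈ (0, 1)`, almost
surely, the polymer probability of `Δ_n = 0 for all n ∈ [ε N, N]` has upper limit `1` and lower
limit `0` as `N → ∞`.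

Second part: the hypotheses are satisfiable, for every exponent `α > 0` and standard Gaussian
charges.
-/

open MeasureTheory ProbabilityTheory Filter Topology
open Pool.Agent.H.MP_9ba241_pr

set_option linter.style.haveILetI false

namespace Pool.Agent.Results.MP_9ba241_pr.NoLimit

theorem result.{u, v} :
    (∀ (Ω : Type u) (Ω' : Type v) (_ : MeasurableSpace Ω) (_ : MeasurableSpace Ω')
        (K : ℕ → ℝ) (α : ℝ) (P : Measure Ω') (ξ : ℕ → Ω' → ℕ) (ζ : ℕ → Ω' → Bool)
        (ν : Measure ℝ) (Q : Measure Ω) (ω : ℕ → Ω → ℝ),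
        InterArrival K α → IsProbabilityMeasure P → RenewalSigns K P ξ ζ →
        ChargeLaw ν → NoBottomAtom ν → IsProbabilityMeasure Q → Charges ν Q ω →
        ∃ lam h : ℝ, 0 < lam ∧ 0 < h ∧ (lam, h) ∈ interior (delocRegion P ξ ζ Q ω) ∧
          ∀ ε : ℝ, 0 < ε → ε < 1 → ∀ᵐ a ∂Q,
            limsup (fun N => polymer P ξ ζ lam h (fun n => ω n a) N (staysUp ξ ζ ε N)) atTop = 1 ∧
            liminf (fun N => polymer P ξ ζ lam h (fun n => ω n a) N (staysUp ξ ζ ε N)) atTop
              = 0) ∧
    (∀ α : ℝ, 0 < α → ∃ (K : ℕ → ℝ) (Ω Ω' : Type) (_ : MeasurableSpace Ω)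
        (_ : MeasurableSpace Ω') (P : Measure Ω') (ξ : ℕ → Ω' → ℕ) (ζ : ℕ → Ω' → Bool)
        (Q : Measure Ω) (ω : ℕ → Ω → ℝ),
        InterArrival K α ∧ IsProbabilityMeasure P ∧ RenewalSigns K P ξ ζ ∧
        ChargeLaw (gaussianReal 0 1) ∧ NoBottomAtom (gaussianReal 0 1) ∧
        IsProbabilityMeasure Q ∧ Charges (gaussianReal 0 1) Q ω) := by
  constructor
  · intro Ω Ω' mΩ mΩ' K α P ξ ζ ν Q ω hK hP hR hν hb hQ hC
    haveI := hP
    haveI := hQ
    haveI := hν.prob
    exact no_limit hK hR hC hν.exp_moment hν.integrable_id hν.mean hb.enn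
  · intro α hα
    obtain ⟨K, hK⟩ := exists_interArrival α hα
    obtain ⟨ρ, hρ, hR⟩ := exists_renewal hK
    exact ⟨K, ℕ → ℝ, ℕ → ℕ × Bool, inferInstance, inferInstance, seqLaw ρ,
      fun i x => (x i).1, fun i x => (x i).2, seqLaw (gaussianReal 0 1), fun n a => a n,
      hK, inferInstance, hR, chargeLaw_gaussian, noBottomAtom_gaussian, inferInstance,
      exists_charges _⟩

end Pool.Agent.Results.MP_9ba241_pr.NoLimit
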